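import Pool.Agent.V1176.LN.Var

/-!
# The roots of ALL polynomials `g + n`, `n` in windows, modulo the primes `p ≤ x`

For a monic polynomial `g` with integer coefficients of positive degree and an integer `n` let `f = g + n`. The Weyl sums of
the roots `ν / p`, `f(ν) ≡ 0 mod p`, over the primes `p ≤ x` are at most `ε π(x)`, and the number of these roots is
`π(x)` up to `ε π(x)`, for ALL `g`, ALL integers `n` in the windows `|n - α v_ν| ≤ v_ν ^ ϑ`, `ν` large, and all `x` between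
`n ^ (1 - s)` and `n ^ s`, for all `α > 0` outside a set of Hausdorff dimension at most `(s + τ) / (1 - ϑ)`. The same in small
residue classes modulo the powers of a prime.
-/

set_option autoImplicit false

namespace Pool.Agent.Results.MP_d315f4_nt.AllPolynomialsInWindows

open Finset Polynomial Filter

/-- The Weyl sum `∑ e(h ν / p)` over the `0 ≤ ν < p` with `f(ν) ≡ 0 mod p`; for `h = 0` the number of these `ν`. -/
noncomputable def weylSum (f : ℤ[X]) (h : ℤ) (p : ℕ) : ℂ :=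
  ∑ ν ∈ (range p).filter (fun ν : ℕ => (p : ℤ) ∣ f.eval (ν : ℤ)),
    Complex.exp (2 * Real.pi * Complex.I * (h * ν / p))

/-- `f = g + n` satisfies the law up to `x`: the sum of the Weyl sums over the primes `p ≤ x` is at most `ε π(x)` in absolute
value if `h ≠ 0`, and it differs from `π(x)` by at most `ε π(x)` if `h = 0`. -/
def Law (g : ℤ[X]) (h : ℤ) (ε : ℝ) (n : ℤ) (x : ℕ) : Prop :=
  ‖∑ p ∈ (range (x + 1)).filter Nat.Prime, weylSum (g + C n) h p - (if h = 0 then (Nat.primeCounting x : ℂ) else 0)‖ ≤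
    ε * Nat.primeCounting x

/-- the exponent of convergence of the sequence `v` is at most `τ` -/
def ExpLe (v : ℕ → ℝ) (τ : ℝ) : Prop := ∀ t : ℝ, τ < t → Summable (fun n : ℕ => (v n) ^ (-t))

/-- `P n x` holds for all large `ν`, ALL integers `n ≥ 1` with `|n - α v_ν| ≤ v_ν ^ ϑ` and ALL `x` between
`n ^ (1 - s)` and `n ^ s`. -/
def InWindows (v : ℕ → ℝ) (ϑ s α : ℝ) (P : ℤ → ℕ → Prop) : Prop :=
  ∃ ν₀ : ℕ, ∀ ν : ℕ, ν₀ ≤ ν → ∀ n : ℕ, 1 ≤ n → |(n : ℝ) - α * v ν| ≤ (v ν) ^ ϑ →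
    ∀ x : ℕ, (n : ℝ) ^ (1 - s) ≤ x → (x : ℝ) ≤ (n : ℝ) ^ s → P n x

/-- `P n x` holds for all large `Y`, ALL integers `1 ≤ n ≤ Y` with `|n - α|_q ≤ Y ^ (-σ)` and ALL `x` between
`n ^ (1 - s)` and `n ^ s`. -/
def InClasses (q : ℕ) [Fact q.Prime] (σ s : ℝ) (α : ℤ_[q]) (P : ℤ → ℕ → Prop) : Prop :=
  ∃ Y₀ : ℝ, ∀ Y : ℝ, Y₀ ≤ Y → ∀ n : ℕ, 1 ≤ n → (n : ℝ) ≤ Y → ‖(n : ℤ_[q]) - α‖ ≤ Y ^ (-σ) →
    ∀ x : ℕ, (n : ℝ) ^ (1 - s) ≤ x → (x : ℝ) ≤ (n : ℝ) ^ s → P n x

/-! ### The proof -/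

open Classical in
/-- the Weyl sum as a function of the residue class of `n` -/
noncomputable def W (g : ℤ[X]) (h : ℤ) (p : ℕ) (a : ZMod p) : ℂ :=
  ∑ ν ∈ (range p).filter (fun ν : ℕ => ((g.eval (ν : ℤ) : ℤ) : ZMod p) + a = 0),
    Complex.exp (2 * Real.pi * Complex.I * (h * ν / p))

lemma W_eq (g : ℤ[X]) (h : ℤ) (p : ℕ) (n : ℤ) : W g h p (n : ZMod p) = weylSum (g + C n) h p := by
  classical
  unfold W weylSum
  refine sum_congr (filter_congr fun ν _ => ?_) fun _ _ => rfl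
  rw [eval_add, eval_C, ← Int.cast_add, ZMod.intCast_zmod_eq_zero_iff_dvd]

lemma norm_e (h : ℤ) (p ν : ℕ) : ‖Complex.exp (2 * Real.pi * Complex.I * (h * ν / p))‖ = 1 := by
  have e : 2 * (Real.pi : ℂ) * Complex.I * (h * ν / p) = ((2 * Real.pi * (h * ν / p) : ℝ) : ℂ) * Complex.I := by
    push_cast
    ring
  rw [e, Complex.norm_exp_ofReal_mul_I]

lemma W_le (g : ℤ[X]) (hg : g.Monic) (hd : 0 < g.natDegree) (h : ℤ) (p : ℕ) (hp : p.Prime) (a : ZMod p) :
    ‖W g h p a‖ ≤ g.natDegree := by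
  classical
  have : Fact p.Prime := ⟨hp⟩
  unfold W
  refine (norm_sum_le _ _).trans ?_
  simp only [norm_e]
  rw [sum_const, nsmul_eq_mul, mul_one]
  have hf : (g.map (Int.castRingHom (ZMod p)) + C a).Monic := by
    refine (hg.map _).add_of_left ?_
    rw [hg.degree_map]
    exact degree_C_le.trans_lt (natDegree_pos_iff_degree_pos.1 hd)
  have hdeg : (g.map (Int.castRingHom (ZMod p)) + C a).natDegree ≤ g.natDegree := by
    refine (natDegree_add_le _ _).trans ?_
    rw [natDegree_C]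
    exact max_le natDegree_map_le (Nat.zero_le _)
  have h1 : ((range p).filter (fun ν : ℕ => ((g.eval (ν : ℤ) : ℤ) : ZMod p) + a = 0)).card ≤
      (g.map (Int.castRingHom (ZMod p)) + C a).roots.toFinset.card := by
    refine card_le_card_of_injOn (fun ν : ℕ => (ν : ZMod p)) ?_ ?_
    · intro ν hν
      rw [mem_coe, mem_filter] at hν
      rw [mem_coe, Multiset.mem_toFinset, mem_roots hf.ne_zero, IsRoot.def, eval_add, eval_C]
      have := hν.2
      rw [eval_map, eval₂_at_natCast]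
      simpa using this
    · intro ν hν μ hμ hνμ
      rw [mem_coe, mem_filter, mem_range] at hν hμ
      have := (ZMod.natCast_eq_natCast_iff' ν μ p).1 hνμ
      rwa [Nat.mod_eq_of_lt hν.1, Nat.mod_eq_of_lt hμ.1] at this
  have h2 : (g.map (Int.castRingHom (ZMod p)) + C a).roots.toFinset.card ≤ g.natDegree :=
    (Multiset.toFinset_card_le _).trans ((card_roots' _).trans hdeg)
  exact_mod_cast h1.trans h2

lemma W_mean (g : ℤ[X]) (h : ℤ) (p : ℕ) (hp : p.Prime) :
    ∑ a ∈ range p, W g h p ((a : ℕ) : ZMod p) = ∑ ν ∈ range p, Complex.exp (2 * Real.pi * Complex.I * (h * ν / p)) := by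
  classical
  have : Fact p.Prime := ⟨hp⟩
  unfold W
  simp only [sum_filter]
  rw [sum_comm]
  refine sum_congr rfl fun ν _ => ?_
  rw [← sum_filter, sum_const]
  have h1 : ((range p).filter (fun a : ℕ => ((g.eval (ν : ℤ) : ℤ) : ZMod p) + ((a : ℕ) : ZMod p) = 0)) =
      {(-((g.eval (ν : ℤ) : ℤ) : ZMod p)).val} := by
    ext a
    rw [mem_filter, mem_range, mem_singleton]
    constructor
    · rintro ⟨h2, h3⟩
      have h4 : ((a : ℕ) : ZMod p) = -((g.eval (ν : ℤ) : ℤ) : ZMod p) := by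
        rw [eq_neg_iff_add_eq_zero, add_comm]
        exact h3
      rw [← h4, ZMod.val_cast_of_lt h2]
    · rintro rfl
      refine ⟨ZMod.val_lt _, ?_⟩
      rw [ZMod.natCast_zmod_val]
      ring
  rw [h1, card_singleton, one_smul]

lemma exp_sum (h : ℤ) (p : ℕ) (hp : p.Prime) :
    ∑ ν ∈ range p, Complex.exp (2 * Real.pi * Complex.I * (h * ν / p)) = if (p : ℤ) ∣ h then (p : ℂ) else 0 := by
  have hp0 : (p : ℂ) ≠ 0 := by exact_mod_cast hp.ne_zero
  have e : ∀ ν : ℕ, Complex.exp (2 * Real.pi * Complex.I * (h * ν / p)) =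
      Complex.exp (2 * Real.pi * Complex.I * (h / p)) ^ ν := by
    intro ν
    rw [← Complex.exp_nat_mul]
    congr 1
    ring
  simp only [e]
  have hpi : (2 * (Real.pi : ℂ) * Complex.I) ≠ 0 := Complex.two_pi_I_ne_zero
  by_cases hd : (p : ℤ) ∣ h
  · rw [if_pos hd]
    obtain ⟨k, rfl⟩ := hd
    have h1 : Complex.exp (2 * Real.pi * Complex.I * (((p : ℤ) * k : ℤ) / p)) = 1 := by
      rw [Complex.exp_eq_one_iff]
      refine ⟨k, ?_⟩
      push_cast
      field_simp
    rw [h1]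
    simp
  · rw [if_neg hd]
    have h1 : Complex.exp (2 * Real.pi * Complex.I * (h / p)) ≠ 1 := by
      rw [Ne, Complex.exp_eq_one_iff]
      rintro ⟨k, hk⟩
      apply hd
      refine ⟨k, ?_⟩
      have h2 : (h : ℂ) / p = k := by
        have : 2 * (Real.pi : ℂ) * Complex.I * ((h : ℂ) / p) = 2 * (Real.pi : ℂ) * Complex.I * k := by
          rw [hk]
          ring
        exact mul_left_cancel₀ hpi this
      rw [div_eq_iff hp0] at h2
      have h3 : (h : ℂ) = ((p * k : ℤ) : ℂ) := by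
        rw [h2]
        push_cast
        ring
      exact_mod_cast h3
    have h2 : Complex.exp (2 * Real.pi * Complex.I * (h / p)) ^ p = 1 := by
      rw [← Complex.exp_nat_mul, Complex.exp_eq_one_iff]
      refine ⟨h, ?_⟩
      field_simp
    rw [geom_sum_eq h1, h2, sub_self, zero_div]

open Pool.Agent.TH375.KL (dev nu)

/-- the real and the imaginary part -/
def part (b : Bool) (z : ℂ) : ℝ := if b then z.re else z.im

lemma part_add (b : Bool) (z w : ℂ) : part b (z + w) = part b z + part b w := by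
  cases b <;> simp [part]

lemma part_sum (b : Bool) {ι : Type} (s : Finset ι) (f : ι → ℂ) : part b (∑ i ∈ s, f i) = ∑ i ∈ s, part b (f i) := by
  cases b
  · simp [part]
  · simp [part]

lemma part_le (b : Bool) (z : ℂ) : |part b z| ≤ ‖z‖ := by
  cases b
  · exact Complex.abs_im_le_norm z
  · exact Complex.abs_re_le_norm z

open Classical in
/-- the normalised function on the residue classes -/
noncomputable def GG (g : ℤ[X]) (h : ℤ) (b : Bool) (p : ℕ) (a : ZMod p) : ℝ :=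
  if p.Prime ∧ g.Monic ∧ 0 < g.natDegree then part b (W g h p a) / g.natDegree else 0

lemma GG_le (g : ℤ[X]) (h : ℤ) (b : Bool) (p : ℕ) (a : ZMod p) : |GG g h b p a| ≤ 1 := by
  unfold GG
  split_ifs with hc
  · obtain ⟨hp, hg, hd⟩ := hc
    have hd0 : (0 : ℝ) < g.natDegree := by exact_mod_cast hd
    rw [abs_div, abs_of_pos hd0, div_le_one hd0]
    exact (part_le b _).trans (W_le g hg hd h p hp a)
  · rw [abs_zero]
    exact zero_le_one

open Classical in
/-- the number of the primes `p ≤ x` which divide `h` -/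
noncomputable def TT (h : ℤ) (x : ℕ) : ℝ :=
  ∑ p ∈ (range (x + 1)).filter Nat.Prime, if (p : ℤ) ∣ h then (1 : ℝ) else 0

lemma TT_zero (x : ℕ) : TT 0 x = Nat.primeCounting x := by
  unfold TT
  simp only [dvd_zero, if_true]
  rw [sum_const, nsmul_eq_mul, mul_one]
  exact_mod_cast Pool.Agent.TH375.KL.card_Pr x

lemma TT_le (h : ℤ) (hh : h ≠ 0) (x : ℕ) : |TT h x| ≤ h.natAbs := by
  classical
  have h0 : 0 ≤ TT h x := sum_nonneg fun p _ => by split_ifs <;> norm_num
  rw [abs_of_nonneg h0]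
  unfold TT
  rw [← sum_filter, sum_const, nsmul_eq_mul, mul_one]
  have h1 : (((range (x + 1)).filter Nat.Prime).filter (fun p : ℕ => (p : ℤ) ∣ h)).card ≤ (Icc 1 h.natAbs).card := by
    refine card_le_card fun p hp => ?_
    rw [mem_filter, mem_filter] at hp
    rw [mem_Icc]
    have h2 : p ∣ h.natAbs := Int.natCast_dvd.1 hp.2
    exact ⟨hp.1.2.pos, Nat.le_of_dvd (Int.natAbs_pos.2 hh) h2⟩
  rw [Nat.card_Icc, Nat.add_sub_cancel] at h1
  exact_mod_cast h1

lemma dev_GG (g : ℤ[X]) (hg : g.Monic) (hd : 0 < g.natDegree) (h : ℤ) (b : Bool) (n : ℤ) (x : ℕ) :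
    (g.natDegree : ℝ) * dev (GG g h b) x n =
      part b (∑ p ∈ (range (x + 1)).filter Nat.Prime, weylSum (g + C n) h p) - part b ((TT h x : ℝ) : ℂ) := by
  classical
  have hd0 : (g.natDegree : ℝ) ≠ 0 := by exact_mod_cast hd.ne'
  unfold dev Pool.Agent.TH375.KL.Pr TT
  rw [Complex.ofReal_sum, part_sum, part_sum, ← sum_sub_distrib, mul_sum]
  refine sum_congr rfl fun p hp => ?_
  rw [mem_filter] at hp
  have hp2 := hp.2
  have hp0 : (p : ℝ) ≠ 0 := by exact_mod_cast hp2.ne_zero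
  have h1 : GG g h b p (n : ZMod p) = part b (weylSum (g + C n) h p) / g.natDegree := by
    unfold GG
    rw [if_pos ⟨hp2, hg, hd⟩, W_eq]
  have h2 : nu (GG g h b) p = part b (((if (p : ℤ) ∣ h then (1 : ℝ) else 0 : ℝ) : ℂ)) / g.natDegree := by
    unfold nu
    have h3 : ∑ a ∈ range p, GG g h b p ((a : ℕ) : ZMod p) =
        part b (∑ a ∈ range p, W g h p ((a : ℕ) : ZMod p)) / g.natDegree := by
      rw [part_sum, sum_div]
      refine sum_congr rfl fun a _ => ?_
      unfold GG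
      rw [if_pos ⟨hp2, hg, hd⟩]
    rw [h3, W_mean g h p hp2, exp_sum h p hp2]
    by_cases hdv : (p : ℤ) ∣ h
    · rw [if_pos hdv, if_pos hdv]
      have e : ((p : ℕ) : ℂ) = ((p : ℝ) : ℂ) := by norm_cast
      rw [e]
      cases b
      · simp [part]
      · simp only [part, if_true, Complex.ofReal_re]
        field_simp
    · rw [if_neg hdv, if_neg hdv]
      cases b <;> simp [part]
  rw [h1, h2]
  field_simp

lemma final (g : ℤ[X]) (hg : g.Monic) (hd : 0 < g.natDegree) (h : ℤ) {ε : ℝ} (hε : 0 < ε) (n : ℤ) (x : ℕ)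
    (h1 : |dev (GG g h true) x n| ≤ ε / (3 * g.natDegree) * Nat.primeCounting x)
    (h2 : |dev (GG g h false) x n| ≤ ε / (3 * g.natDegree) * Nat.primeCounting x)
    (h3 : (h.natAbs : ℝ) ≤ ε / 3 * Nat.primeCounting x) : Law g h ε n x := by
  have hd0 : (0 : ℝ) < g.natDegree := by exact_mod_cast hd
  have hπ : (0 : ℝ) ≤ Nat.primeCounting x := Nat.cast_nonneg _
  have k1 := dev_GG g hg hd h true n x
  have k2 := dev_GG g hg hd h false n x
  unfold Law
  set S : ℂ := ∑ p ∈ (range (x + 1)).filter Nat.Prime, weylSum (g + C n) h p with hS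
  have e1 : part true ((TT h x : ℝ) : ℂ) = TT h x := by simp [part]
  have e2 : part false ((TT h x : ℝ) : ℂ) = 0 := by simp [part]
  rw [e1] at k1
  rw [e2, sub_zero] at k2
  have m1 : |S.re - TT h x| ≤ ε / 3 * Nat.primeCounting x := by
    have : S.re - TT h x = (g.natDegree : ℝ) * dev (GG g h true) x n := by
      rw [k1]
      simp [part]
    rw [this, abs_mul, abs_of_pos hd0]
    calc (g.natDegree : ℝ) * |dev (GG g h true) x n| ≤ (g.natDegree : ℝ) * (ε / (3 * g.natDegree) * Nat.primeCounting x) :=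
          mul_le_mul_of_nonneg_left h1 hd0.le
      _ = ε / 3 * Nat.primeCounting x := by field_simp
  have m2 : |S.im| ≤ ε / 3 * Nat.primeCounting x := by
    have : S.im = (g.natDegree : ℝ) * dev (GG g h false) x n := by
      rw [k2]
      simp [part]
    rw [this, abs_mul, abs_of_pos hd0]
    calc (g.natDegree : ℝ) * |dev (GG g h false) x n| ≤ (g.natDegree : ℝ) * (ε / (3 * g.natDegree) * Nat.primeCounting x) :=
          mul_le_mul_of_nonneg_left h2 hd0.le
      _ = ε / 3 * Nat.primeCounting x := by field_simp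
  have m3 : |TT h x - (if h = 0 then (Nat.primeCounting x : ℝ) else 0)| ≤ ε / 3 * Nat.primeCounting x := by
    by_cases hh : h = 0
    · subst hh
      rw [if_pos rfl, TT_zero, sub_self, abs_zero]
      positivity
    · rw [if_neg hh, sub_zero]
      exact (TT_le h hh x).trans h3
  have e3 : (if h = 0 then (Nat.primeCounting x : ℂ) else 0) =
      (((if h = 0 then (Nat.primeCounting x : ℝ) else 0 : ℝ)) : ℂ) := by
    split_ifs <;> simp
  rw [e3]
  refine (Complex.norm_le_abs_re_add_abs_im _).trans ?_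
  rw [Complex.sub_re, Complex.sub_im, Complex.ofReal_re, Complex.ofReal_im, sub_zero]
  have m4 := abs_add_le (S.re - TT h x) (TT h x - (if h = 0 then (Nat.primeCounting x : ℝ) else 0))
  rw [sub_add_sub_cancel] at m4
  linarith

lemma enum : ∃ e : ℕ → ℤ[X] × ℤ × Bool, Function.Surjective e := by
  have h1 : Countable ℤ[X] := Pool.Agent.V1176.LN.countable_poly
  exact exists_surjective_nat _

lemma large (h : ℤ) {ε : ℝ} (hε : 0 < ε) :
    ∀ᶠ x : ℕ in atTop, (h.natAbs : ℝ) ≤ ε / 3 * Nat.primeCounting x := by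
  have hinf : Tendsto (fun x => (Nat.primeCounting x : ℝ)) atTop atTop :=
    tendsto_natCast_atTop_atTop.comp Nat.tendsto_primeCounting
  exact (hinf.const_mul_atTop (show 0 < ε / 3 by positivity)).eventually_ge_atTop _

/-- **The roots of all polynomials `g + n` modulo primes, in windows and in small residue classes.** -/
theorem result :
    (∀ (v : ℕ → ℝ) (τ ϑ s : ℝ), (∀ ν, 1 ≤ v ν) → 0 ≤ τ → ExpLe v τ → ϑ < 1 → 0 ≤ s → s < 1 →
      ∃ E : Set ℝ, dimH E ≤ ENNReal.ofReal ((s + τ) / (1 - ϑ)) ∧ ∀ α : ℝ, 0 < α → α ∉ E →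
        ∀ g : ℤ[X], g.Monic → 0 < g.natDegree → ∀ (h : ℤ) (ε : ℝ), 0 < ε → InWindows v ϑ s α (Law g h ε)) ∧
    (∀ a : ℝ, 0 < a → ExpLe (fun n : ℕ => ((n : ℝ) + 1) ^ a) (1 / a)) ∧
    (∀ b : ℝ, 1 < b → ExpLe (fun n : ℕ => b ^ n) 0) ∧
    (∀ (q : ℕ) [Fact q.Prime] (σ s : ℝ), 0 < σ → 0 ≤ s → s < 1 →
      ∃ E : Set ℤ_[q], dimH E ≤ ENNReal.ofReal (s / σ) ∧ ∀ α : ℤ_[q], α ∉ E →
        ∀ g : ℤ[X], g.Monic → 0 < g.natDegree → ∀ (h : ℤ) (ε : ℝ), 0 < ε → InClasses q σ s α (Law g h ε)) := by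
  obtain ⟨e, he⟩ := enum
  refine ⟨?_, fun κ hκ => Pool.Agent.Y854.GM.expLe_pow κ hκ,
    fun b hb => Pool.Agent.Y854.GM.expLe_geom b hb, ?_⟩
  · intro v τ ϑ s hv hτ hvτ hϑ hs0 hs1
    obtain ⟨E, hE, hall⟩ := Pool.Agent.V1176.LN.win (G := fun i => GG (e i).1 (e i).2.1 (e i).2.2)
      (fun i => GG_le _ _ _) hv hτ hvτ hs0 hs1 hϑ
    refine ⟨E, hE, fun α hα hαE g hg hd h ε hε => ?_⟩
    have hd0 : (0 : ℝ) < g.natDegree := by exact_mod_cast hd
    obtain ⟨i, hi⟩ := he (g, h, true)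
    obtain ⟨j, hj⟩ := he (g, h, false)
    obtain ⟨ν₁, h1⟩ := hall α hα hαE i (ε / (3 * g.natDegree)) (by positivity)
    obtain ⟨ν₂, h2⟩ := hall α hα hαE j (ε / (3 * g.natDegree)) (by positivity)
    obtain ⟨ν₃, h3⟩ := Pool.Agent.V1176.LN.window_large (v := v) (τ := τ) (ϑ := ϑ) (s := s) hv hτ hvτ hs1 hϑ hα
      (large h hε)
    simp only [hi] at h1
    simp only [hj] at h2
    refine ⟨max ν₁ (max ν₂ ν₃), fun ν hν n hn hw x hx1 hx2 => ?_⟩
    exact final g hg hd h hε n x (h1 ν ((le_max_left _ _).trans hν) n hn hw x hx1 hx2)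
      (h2 ν (((le_max_left _ _).trans (le_max_right _ _)).trans hν) n hn hw x hx1 hx2)
      (h3 ν (((le_max_right _ _).trans (le_max_right _ _)).trans hν) n hn hw x hx1 hx2)
  · intro q _ σ s hσ hs0 hs1
    obtain ⟨E, hE, hall⟩ := Pool.Agent.V1176.LN.cls q (G := fun i => GG (e i).1 (e i).2.1 (e i).2.2)
      (fun i => GG_le _ _ _) hs0 hs1 hσ
    have hN : dimH (Set.range (fun n : ℕ => (n : ℤ_[q]))) = 0 := (Set.countable_range _).dimH_zero
    refine ⟨E ∪ Set.range (fun n : ℕ => (n : ℤ_[q])), ?_, fun α hαE g hg hd h ε hε => ?_⟩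
    · rw [dimH_union, hN]
      exact max_le hE bot_le
    have hα1 : α ∉ E := fun h => hαE (Or.inl h)
    have hα4 : ∀ n : ℕ, (n : ℤ_[q]) ≠ α := fun n h => hαE (Or.inr ⟨n, h⟩)
    have hd0 : (0 : ℝ) < g.natDegree := by exact_mod_cast hd
    obtain ⟨i, hi⟩ := he (g, h, true)
    obtain ⟨j, hj⟩ := he (g, h, false)
    obtain ⟨ν₁, h1⟩ := hall α hα1 i (ε / (3 * g.natDegree)) (by positivity)
    obtain ⟨ν₂, h2⟩ := hall α hα1 j (ε / (3 * g.natDegree)) (by positivity)
    obtain ⟨ν₃, h3⟩ := Pool.Agent.V1176.LN.class_large (σ := σ) (s := s) q hσ hs1 hα4 (large h hε)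
    simp only [hi] at h1
    simp only [hj] at h2
    refine ⟨max ν₁ (max ν₂ ν₃), fun Y hY n hn hnY hw x hx1 hx2 => ?_⟩
    exact final g hg hd h hε n x (h1 Y ((le_max_left _ _).trans hY) n hn hnY hw x hx1 hx2)
      (h2 Y (((le_max_left _ _).trans (le_max_right _ _)).trans hY) n hn hnY hw x hx1 hx2)
      (h3 Y (((le_max_right _ _).trans (le_max_right _ _)).trans hY) n hn hnY hw x hx1 hx2)

end Pool.Agent.Results.MP_d315f4_nt.AllPolynomialsInWindows
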